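import Pool.Agent.Helper88.QT.St2
import Pool.Agent.Helper85.QT.St1
import Pool.Agent.Helper35.PQF.St

/-!
# Project QT, module AXR: representatives of conjugacy classes
-/

set_option autoImplicit false

open MeasureTheory Matrix Set Topology
open scoped ENNReal ComplexConjugate

namespace Pool.Agent.Helper70.QT

open Pool.Agent.Helper88.QT Pool.Agent.Helper85.QT Pool.Agent.Helper86.QA
open Pool.Agent.Helper35.PM (hs tl len classes num ent)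

/-- fixed points from eigenvalues -/
private lemma fixed (g : SL) {μ : ℂ} (hμ : μ ^ 2 - (g : Mat).trace * μ + 1 = 0) (hμ0 : μ ≠ 0)
    (hc : g 1 0 ≠ 0) :
    g 1 0 * ((μ - g 1 1) / g 1 0) + g 1 1 = μ ∧ mb g ((μ - g 1 1) / g 1 0) =
      (μ - g 1 1) / g 1 0 := by
  have h1 : g 1 0 * ((μ - g 1 1) / g 1 0) + g 1 1 = μ := by
    rw [mul_div_cancel₀ _ hc]
    ring
  refine ⟨h1, ?_⟩
  unfold mb
  rw [h1, div_eq_iff hμ0]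
  have hdet : g 0 0 * g 1 1 - g 0 1 * g 1 0 = 1 := by
    have := g.det_coe
    rwa [Matrix.det_fin_two] at this
  rw [Matrix.trace_fin_two] at hμ
  field_simp
  linear_combination -hμ - hdet

/-- a point outside the tubes -/
private lemma point {Γ : Type} [Group Γ] {ρ : Γ →* SL} {α : Γ} {lam : ℂ}
    (hGPM : StGPM) (hGPT : StGPT) (hlam : lam ≠ 0)
    (hINT : ∀ i j : Li α, ∀ x ∈ up, 12 ≤ Ti ρ α lam i x → 12 ≤ Ti ρ α lam j x → i = j)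
    {a b : ℂ} (hab : a ≠ b) (ha : Reg ρ a) (hb : Reg ρ b) :
    ∃ v₀ : ℝ, ∀ i : Li α, Ti ρ α lam i (gp a b v₀) ≤ 2 * cz := by
  by_cases h : ∀ i : Li α, Ti ρ α lam i (gp a b 0) ≤ 2 * cz
  · exact ⟨0, h⟩
  push Not at h
  obtain ⟨i, hi⟩ := h
  obtain ⟨g, hg⟩ : ∃ g : Γ, g = (Quotient.out i : Γ)⁻¹ := ⟨_, rfl⟩
  have hda := (ha g).1
  have hdb := (hb g).1
  obtain ⟨hne, -⟩ := hGPM.2.1 (ρ g) a b 0 hab hda hdb
  have hga : ∀ u : ℝ, ga (ρ g) (gp a b u) = gp (mb (ρ g) a) (mb (ρ g) b)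
      (u + Real.log (‖ρ g 1 0 * a + ρ g 1 1‖ / ‖ρ g 1 0 * b + ρ g 1 1‖)) := fun u =>
    (hGPM.2.1 (ρ g) a b u hab hda hdb).2
  obtain ⟨κ, hκ⟩ : ∃ κ : ℝ, κ = Real.log (‖ρ g 1 0 * a + ρ g 1 1‖ / ‖ρ g 1 0 * b + ρ g 1 1‖) :=
    ⟨_, rfl⟩
  have hTi : ∀ u : ℝ, Ti ρ α lam i (gp a b u) = TT lam (gp (mb (ρ g) a) (mb (ρ g) b) (u + κ)) := by
    intro u
    unfold Ti Tg
    rw [← hg, hga, ← hκ]
  have ha0 : mb (ρ g) a ≠ 0 := div_ne_zero (ha g).2 hda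
  have hb0 : mb (ρ g) b ≠ 0 := div_ne_zero (hb g).2 hdb
  have hcz : (0 : ℝ) < 2 * cz := by unfold cz; norm_num
  rw [hTi, zero_add] at hi
  obtain ⟨s, t, _, _, _, ht, -⟩ := (hGPT lam (mb (ρ g) a) (mb (ρ g) b) hlam ha0 hb0 hne).2
    (2 * cz) κ hcz hi
  refine ⟨t - κ, fun j => ?_⟩
  by_contra hj
  push Not at hj
  have hTt : Ti ρ α lam i (gp a b (t - κ)) = 2 * cz := by
    rw [hTi, sub_add_cancel, ht]
  have h12 : (12 : ℝ) ≤ 2 * cz := by unfold cz; norm_num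
  have hij := hINT i j (gp a b (t - κ)) (hGPM.1 a b (t - κ) 0 hab).1 (by rw [hTt]; exact h12)
    (h12.trans hj.le)
  rw [← hij, hTt] at hj
  exact lt_irrefl _ hj

theorem hAXR (hHS2 : Pool.Agent.Helper35.PM.St_HS2) (hACT : Pool.Agent.Helper86.QA.StACT)
    (_hCHI : Pool.Agent.Helper86.QA.StCHI) (hCHV : Pool.Agent.Helper86.QA.StCHV)
    (hSB5 : Pool.Agent.Helper85.QT.StSB5) (hSB6 : Pool.Agent.Helper85.QT.StSB6)
    (hGPM : Pool.Agent.Helper88.QT.StGPM) (hGPT : Pool.Agent.Helper88.QT.StGPT)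
    (hINV : Pool.Agent.Helper88.QT.StINV) (hINT : Pool.Agent.Helper88.QT.StINT)
    (hNOF : Pool.Agent.Helper88.QT.StNOF) : Pool.Agent.Helper88.QT.StAXR := by
  intro Γ _ ρ A B α lam M G m φ C3 hAnn hlam
  have hlam0 : lam ≠ 0 := by
    intro h
    have := hAnn.re
    rw [h] at this
    simp at this
  obtain ⟨K, hK, hKup, hKcov⟩ := hSB6 Γ ρ A B hAnn.kd 0 le_rfl
  have hcont : ContinuousOn (fun y : Pt => ch oo y) up := by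
    unfold ch oo
    refine ContinuousOn.div (by fun_prop) (by fun_prop) ?_
    intro y hy
    have hy' : 0 < y.2 := hy
    positivity
  obtain ⟨C, hC⟩ := hK.exists_bound_of_continuousOn (hcont.mono hKup)
  refine ⟨max 1 C, le_max_left _ _, ?_⟩
  intro γ htl hconj
  obtain ⟨hc, -, hfix⟩ := hNOF Γ ρ A B α lam M G m φ C3 hAnn γ hconj
  obtain ⟨μ, hμ, hμ1, hμl⟩ := hHS2.1 (ρ γ)
  have hμn : 1 < ‖μ‖ := by
    rcases hμ1.lt_or_eq with h | h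
    · exact h
    · rw [hμl, ← h, Real.log_one, mul_zero] at htl
      exact absurd htl (lt_irrefl _)
  have hμ0 : μ ≠ 0 := norm_pos_iff.1 (by linarith)
  have hμ' : μ⁻¹ ^ 2 - ((ρ γ : SL) : Mat).trace * μ⁻¹ + 1 = 0 := by
    have : μ⁻¹ ^ 2 - ((ρ γ : SL) : Mat).trace * μ⁻¹ + 1 =
        (μ ^ 2 - ((ρ γ : SL) : Mat).trace * μ + 1) / μ ^ 2 := by
      field_simp
      ring
    rw [this, hμ, zero_div]
  obtain ⟨L, hL⟩ : ∃ L : ℝ, L = tl (ρ γ) := ⟨_, rfl⟩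
  rw [← hL] at htl hμl ⊢
  obtain ⟨a₀, ha₀⟩ : ∃ a : ℂ, a = (μ - ρ γ 1 1) / ρ γ 1 0 := ⟨_, rfl⟩
  obtain ⟨b₀, hb₀⟩ : ∃ b : ℂ, b = (μ⁻¹ - ρ γ 1 1) / ρ γ 1 0 := ⟨_, rfl⟩
  obtain ⟨ja, fa⟩ := fixed (ρ γ) hμ hμ0 hc
  obtain ⟨jb, fb⟩ := fixed (ρ γ) hμ' (inv_ne_zero hμ0) hc
  rw [← ha₀] at ja fa
  rw [← hb₀] at jb fb
  have hda : ρ γ 1 0 * a₀ + ρ γ 1 1 ≠ 0 := by rw [ja]; exact hμ0
  have hdb : ρ γ 1 0 * b₀ + ρ γ 1 1 ≠ 0 := by rw [jb]; exact inv_ne_zero hμ0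
  obtain ⟨ra, la⟩ := hfix a₀ hda fa
  obtain ⟨rb, lb⟩ := hfix b₀ hdb fb
  have hμi : ‖μ⁻¹‖ < 1 := by
    rw [norm_inv]
    exact inv_lt_one_of_one_lt₀ hμn
  have hab : a₀ ≠ b₀ := by
    intro h
    rw [h, jb] at ja
    rw [ja] at hμi
    linarith
  have hmove : ∀ v : ℝ, ga (ρ γ) (gp a₀ b₀ v) = gp a₀ b₀ (v + L) := by
    intro v
    have h1 := (hGPM.2.1 (ρ γ) a₀ b₀ v hab hda hdb).2
    rw [fa, fb, ja, jb] at h1
    rw [h1, hμl]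
    congr 2
    rw [norm_inv, div_inv_eq_mul, ← sq, Real.log_pow]
    norm_num
  obtain ⟨hINT1, -⟩ := hINT Γ ρ A B α lam M G m φ C3 hAnn hlam
  obtain ⟨v₀, hv₀⟩ := point hGPM hGPT hlam0 hINT1 hab ra rb
  obtain ⟨-, hINV2, hINV3⟩ := hINV Γ ρ A B α lam M G m φ C3 hAnn
  have hup : ∀ v : ℝ, gp a₀ b₀ v ∈ up := fun v => (hGPM.1 a₀ b₀ v 0 hab).1
  have hadm : Adm ρ A B α lam a₀ b₀ v₀ (v₀ + L) := by
    refine ⟨la, lb, hab, ra, rb, by linarith, hv₀, fun i => ?_⟩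
    have h1 := hINV2 γ (γ⁻¹ • i) (gp a₀ b₀ v₀) (hup v₀)
    rw [smul_inv_smul, hmove] at h1
    rw [h1]
    exact hv₀ _
  have hsb := hSB5.2 Γ ρ A B hAnn.kd a₀ la b₀ lb hab v₀
  obtain ⟨δ, hδ⟩ := hKcov (gp a₀ b₀ v₀) (hup v₀) hsb
  obtain ⟨κ, hadm', hκ, -⟩ := hINV3 δ a₀ b₀ v₀ (v₀ + L) hadm
  have hja := (ra δ).1
  have hjb := (rb δ).1
  have hg : ρ (δ * γ * δ⁻¹) * ρ δ = ρ δ * ρ γ := by
    rw [← map_mul, ← map_mul, inv_mul_cancel_right]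
  -- fixed points of the conjugate
  have hconjfix : ∀ (x : ℂ) (ν : ℂ), ρ γ 1 0 * x + ρ γ 1 1 = ν → ν ≠ 0 → mb (ρ γ) x = x →
      ρ δ 1 0 * x + ρ δ 1 1 ≠ 0 →
      (ρ (δ * γ * δ⁻¹)) 1 0 * mb (ρ δ) x + (ρ (δ * γ * δ⁻¹)) 1 1 = ν ∧
      mb (ρ (δ * γ * δ⁻¹)) (mb (ρ δ) x) = mb (ρ δ) x := by
    intro x ν hν hν0 hx hd
    have e1 := hCHV.2.1 (ρ (δ * γ * δ⁻¹)) (ρ δ) x hd
    have e2 := hCHV.2.1 (ρ δ) (ρ γ) x (by rw [hν]; exact hν0)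
    rw [hg] at e1
    constructor
    · have e3 := e1.2.symm.trans e2.2
      rw [hx, hν] at e3
      have e4 : ρ δ 1 0 * x + ρ δ 1 1 ≠ 0 := hd
      rw [mul_comm (ρ δ 1 0 * x + ρ δ 1 1) ν] at e3
      exact mul_right_cancel₀ e4 e3
    · rw [← e1.1, e2.1, hx]
  obtain ⟨pa, qa⟩ := hconjfix a₀ μ ja hμ0 fa hja
  obtain ⟨pb, qb⟩ := hconjfix b₀ μ⁻¹ jb (inv_ne_zero hμ0) fb hjb
  refine ⟨δ, mb (ρ δ) a₀, mb (ρ δ) b₀, v₀ + κ, ?_, qa, ?_, qb, ?_, ?_, ?_, ?_⟩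
  · rw [pa]
    exact hμ0
  · rw [pb]
    exact inv_ne_zero hμ0
  · rw [pa]
    exact hμn
  · intro v
    have e1 : gp (mb (ρ δ) a₀) (mb (ρ δ) b₀) v = ga (ρ δ) (gp a₀ b₀ (v - κ)) := by
      rw [hκ, sub_add_cancel]
    rw [e1, ← hACT.2.1 _ _ _ (hup _), hg, hACT.2.1 _ _ _ (hup _), hmove, hκ]
    congr 1
    ring
  · have e1 : v₀ + κ + L = v₀ + L + κ := by ring
    rw [e1]
    exact hadm'
  · rw [← hκ]
    have h1 := hC _ hδ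
    exact (le_abs_self _).trans (h1.trans (le_max_right _ _))

end Pool.Agent.Helper70.QT
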